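import Pool.Agent.Y472.K.DefsX

/-!
# The Turk's head links: expansion of the sum over the lattice points near the critical point
-/

set_option autoImplicit false

namespace Pool.Agent.Y275.TKX

open Finset Filter Topology MeasureTheory Pool.Agent.Y472.K
open scoped Real Interval

/-! ### Gaussian sums -/

theorem gauss_point {a μ m t : ℝ} (ha : 0 < a) (ht : |t - m| ≤ 1) :
    Real.exp (-(a * (m - μ) ^ 2)) ≤ Real.exp a * Real.exp (-(a / 2) * (t - μ) ^ 2) := by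
  rw [← Real.exp_add]
  apply Real.exp_le_exp.2
  have h1 : (t - m) ^ 2 ≤ 1 := by
    rw [← sq_abs]
    have := abs_nonneg (t - m)
    nlinarith
  have h2 : (t - μ) ^ 2 ≤ 2 * (m - μ) ^ 2 + 2 * (t - m) ^ 2 := by
    nlinarith [sq_nonneg ((m - μ) - (t - m))]
  nlinarith

theorem gauss_sum {a μ : ℝ} (ha : 0 < a) (ha1 : a ≤ 1) (F : Finset ℕ) :
    ∑ m ∈ F, Real.exp (-(a * ((m : ℝ) - μ) ^ 2)) ≤ 3 * √(2 * π / a) := by
  have hint : Integrable (fun t : ℝ => Real.exp (-(a / 2) * (t - μ) ^ 2)) :=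
    (integrable_exp_neg_mul_sq (by positivity : 0 < a / 2)).comp_sub_right μ
  have h1 : ∀ m ∈ F, Real.exp (-(a * ((m : ℝ) - μ) ^ 2)) ≤
      ∫ t in Set.Ioc (m : ℝ) (m + 1), Real.exp a * Real.exp (-(a / 2) * (t - μ) ^ 2) := by
    intro m _
    have h2 : ∫ _t in Set.Ioc (m : ℝ) (m + 1), Real.exp (-(a * ((m : ℝ) - μ) ^ 2)) =
        Real.exp (-(a * ((m : ℝ) - μ) ^ 2)) := by
      rw [setIntegral_const]
      simp
    rw [← h2]
    refine setIntegral_mono_on ?_ ?_ measurableSet_Ioc fun t ht => ?_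
    · exact integrableOn_const (by simp)
    · exact (hint.const_mul _).integrableOn
    · refine gauss_point ha ?_
      rw [abs_le]
      constructor <;> linarith [ht.1, ht.2]
  refine (sum_le_sum h1).trans ?_
  rw [← integral_biUnion_finset F (fun m _ => measurableSet_Ioc) ?_ ?_]
  · refine (setIntegral_le_integral (hint.const_mul _)
      (Eventually.of_forall fun t => by positivity)).trans ?_
    rw [integral_const_mul, integral_sub_right_eq_self (fun t => Real.exp (-(a / 2) * t ^ 2)) μ,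
      integral_gaussian]
    have e1 : π / (a / 2) = 2 * π / a := by field_simp
    rw [e1]
    have e2 : Real.exp a ≤ 3 := by
      refine (Real.exp_le_exp.2 ha1).trans ?_
      have := Real.exp_one_lt_d9
      linarith
    gcongr
  · intro i _ j _ hij
    rw [Function.onFun, Set.disjoint_left]
    intro t hi hj
    rcases lt_or_gt_of_ne hij with h | h
    · have : (i : ℝ) + 1 ≤ j := by exact_mod_cast h
      linarith [hi.2, hj.1]
    · have : (j : ℝ) + 1 ≤ i := by exact_mod_cast h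
      linarith [hj.2, hi.1]
  · intro m _
    exact (hint.const_mul _).integrableOn

/-! ### Bounds of the summand -/

section
variable {ι : Type} [Fintype ι]

omit [Fintype ι] in
theorem cst_add (u v : (ι → ℝ) × ℝ) : cst (u + v) = cst u + cst v := by
  unfold cst
  ext1
  · funext i
    simp
  · simp

theorem norm_cst (u : (ι → ℝ) × ℝ) : ‖cst u‖ = ‖u‖ := by
  unfold cst
  rw [Prod.norm_def, Prod.norm_def]
  congr 1
  · simp only [Pi.norm_def, Complex.nnnorm_real]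
  · exact Complex.norm_real _

omit [Fintype ι] in
theorem continuous_cst : Continuous (cst : (ι → ℝ) × ℝ → (ι → ℂ) × ℂ) := by
  unfold cst
  fun_prop

/-- the sup norm and the sum of squares -/
theorem sum_sq_le (u : (ι → ℝ) × ℝ) :
    (∑ i, u.1 i ^ 2 + u.2 ^ 2) / (Fintype.card ι + 1) ≤ ‖u‖ ^ 2 := by
  rw [div_le_iff₀ (by positivity)]
  have h1 : ∀ i, u.1 i ^ 2 ≤ ‖u‖ ^ 2 := by
    intro i
    rw [← sq_abs (u.1 i)]
    have h2 : |u.1 i| ≤ ‖u‖ := (norm_le_pi_norm u.1 i).trans (norm_fst_le u)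
    gcongr
  have h2 : u.2 ^ 2 ≤ ‖u‖ ^ 2 := by
    rw [← sq_abs u.2]
    have h2 : |u.2| ≤ ‖u‖ := norm_snd_le u
    gcongr
  have h3 : ∑ i, u.1 i ^ 2 ≤ Fintype.card ι * ‖u‖ ^ 2 := by
    refine (sum_le_sum fun i _ => h1 i).trans ?_
    rw [sum_const, card_univ, nsmul_eq_mul]
  linarith

/-- the data of the expansion near the critical point -/
structure Dat (Ψ : (ι → ℂ) × ℂ → ℂ) (ws : ι → ℝ) (D : ℝ) (τ : ℕ → (ι → ℂ) × ℂ → ℂ) (K : ℕ)
    (r c B : ℝ) : Prop where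
  rpos : 0 < r
  cpos : 0 < c
  Bpos : 0 ≤ B
  an : ∀ N : ℕ, ∀ p ∈ Metric.ball (cst (ws, 0)) (2 * r), AnalyticAt ℂ (FX Ψ D τ K N) p
  bd : ∀ N : ℕ, 1 ≤ N → ∀ (u : (ι → ℝ) × ℝ) (z : (ι → ℂ) × ℂ), ‖u‖ < r → ‖z‖ < r →
    ‖FX Ψ D τ K N (cst (ws, 0) + cst u + z)‖ ≤
      Real.exp (B + N * (B * ‖z‖ ^ 2) - N * (c * (∑ i, u.1 i ^ 2 + u.2 ^ 2)))

theorem exists_dat (h : S_GBD) (Ψ : (ι → ℂ) × ℂ → ℂ) (ws : ι → ℝ) (D : ℝ)
    (R S : QuadraticForm ℝ ((ι → ℝ) × ℝ)) (hA : AX Ψ ws D R S) (K : ℕ)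
    (τ : ℕ → (ι → ℂ) × ℂ → ℂ) (hτ : ∀ l < K, AnalyticAt ℂ (τ l) (cst (ws, 0))) :
    ∃ r c B : ℝ, Dat Ψ ws D τ K r c B ∧ c ≤ 1 := by
  obtain ⟨r₁, c, C, hr₁, hc, -, -, hbd⟩ := h ι Ψ ws D R S hA
  obtain ⟨B₁, hB₁⟩ : ∃ B₁ : ℝ, B₁ = ∑ l ∈ range K, (‖τ l (cst (ws, 0))‖ + 1) := ⟨_, rfl⟩
  have hB₁0 : 0 ≤ B₁ := by rw [hB₁]; positivity
  have hev : ∀ᶠ p in 𝓝 (cst (ws, 0)), AnalyticAt ℂ Ψ p ∧ ∀ l ∈ range K,
      AnalyticAt ℂ (τ l) p ∧ ‖τ l p‖ < ‖τ l (cst (ws, 0))‖ + 1 := by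
    refine hA.an.eventually_analyticAt.and ?_
    rw [Finset.eventually_all]
    intro l hl
    have h1 := hτ l (mem_range.1 hl)
    exact h1.eventually_analyticAt.and
      (h1.continuousAt.norm.eventually_lt_const (lt_add_one _))
  obtain ⟨r₂, hr₂, hball⟩ := Metric.eventually_nhds_iff_ball.1 hev
  refine ⟨min r₁ (r₂ / 2), min (c / (Fintype.card ι + 1)) 1, max B₁ C, ⟨?_, ?_, ?_, ?_, ?_⟩,
    min_le_right _ _⟩
  · positivity
  · positivity
  · exact le_max_of_le_left hB₁0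
  · intro N p hp
    have hp2 : p ∈ Metric.ball (cst (ws, 0)) r₂ := by
      refine Metric.ball_subset_ball ?_ hp
      have := min_le_right r₁ (r₂ / 2)
      linarith
    obtain ⟨h1, h2⟩ := hball p hp2
    unfold FX
    refine AnalyticAt.cexp ?_
    refine AnalyticAt.add (analyticAt_const.mul (h1.sub analyticAt_const)) ?_
    refine Finset.analyticAt_fun_sum _ fun l hl => ?_
    exact ((h2 l hl).1).div_const
  · intro N hN u z hu hz
    have hN0 : (1 : ℝ) ≤ N := by exact_mod_cast hN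
    have hp2 : cst (ws, 0) + cst u + z ∈ Metric.ball (cst (ws, 0)) r₂ := by
      rw [mem_ball_iff_norm]
      have e1 : cst (ws, 0) + cst u + z - cst (ws, 0) = cst u + z := by abel
      rw [e1]
      refine (norm_add_le _ _).trans_lt ?_
      rw [norm_cst]
      have h3 := min_le_right r₁ (r₂ / 2)
      linarith
    obtain ⟨h1, h2⟩ := hball _ hp2
    have h3 := hbd u z (hu.trans_le (min_le_left _ _)) (hz.trans_le (min_le_left _ _))
    unfold FX
    rw [Complex.norm_exp]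
    apply Real.exp_le_exp.2
    rw [Complex.add_re]
    have h4 : (∑ l ∈ range K, τ l (cst (ws, 0) + cst u + z) / (N : ℂ) ^ l).re ≤ B₁ := by
      refine (Complex.re_le_norm _).trans ((norm_sum_le _ _).trans ?_)
      rw [hB₁]
      refine sum_le_sum fun l hl => ?_
      rw [norm_div, norm_pow, Complex.norm_natCast]
      refine (div_le_self (norm_nonneg _) (one_le_pow₀ hN0)).trans ?_
      exact (h2 l hl).2.le
    have h5 : ((N : ℂ) * (Ψ (cst (ws, 0) + cst u + z) - D)).re =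
        N * ((Ψ (cst (ws, 0) + cst u + z)).re - D) := by
      simp
    rw [h5]
    have h6 := sum_sq_le u
    have h7 : min (c / (Fintype.card ι + 1)) 1 * (∑ i, u.1 i ^ 2 + u.2 ^ 2) ≤ c * ‖u‖ ^ 2 := by
      calc min (c / (Fintype.card ι + 1)) 1 * (∑ i, u.1 i ^ 2 + u.2 ^ 2)
          ≤ c / (Fintype.card ι + 1) * (∑ i, u.1 i ^ 2 + u.2 ^ 2) := by
            refine mul_le_mul_of_nonneg_right (min_le_left _ _) ?_
            have : 0 ≤ ∑ i, u.1 i ^ 2 := sum_nonneg fun _ _ => sq_nonneg _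
            positivity
        _ = c * ((∑ i, u.1 i ^ 2 + u.2 ^ 2) / (Fintype.card ι + 1)) := by ring
        _ ≤ c * ‖u‖ ^ 2 := by gcongr
    have h8 : C * ‖z‖ ^ 2 ≤ max B₁ C * ‖z‖ ^ 2 := by
      have := le_max_right B₁ C
      gcongr
    have h9 := le_max_left B₁ C
    have h10 : (N : ℝ) * ((Ψ (cst (ws, 0) + cst u + z)).re - D) ≤
        N * (max B₁ C * ‖z‖ ^ 2 - min (c / (Fintype.card ι + 1)) 1 *
          (∑ i, u.1 i ^ 2 + u.2 ^ 2)) := by
      refine mul_le_mul_of_nonneg_left ?_ (by linarith)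
      linarith
    have h11 : (N : ℝ) * (max B₁ C * ‖z‖ ^ 2 - min (c / (Fintype.card ι + 1)) 1 *
          (∑ i, u.1 i ^ 2 + u.2 ^ 2)) = N * (max B₁ C * ‖z‖ ^ 2) -
          N * (min (c / (Fintype.card ι + 1)) 1 * (∑ i, u.1 i ^ 2 + u.2 ^ 2)) := by ring
    linarith

/-! ### The inner integral -/

/-- the integral over the last variable -/
noncomputable def GG (Φ : (ι → ℂ) × ℂ → ℂ) (ρ' : ℝ) (w : ι → ℂ) : ℂ :=
  ∫ x in (-ρ')..ρ', Φ (w, (x : ℂ))

theorem mem_ball_of {ws : ι → ℝ} {R : ℝ} {w : ι → ℂ} {x : ℝ}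
    (hw : w ∈ Metric.ball (fun i => (ws i : ℂ)) R) (hx : |x| < R) :
    (w, (x : ℂ)) ∈ Metric.ball (cst (ws, 0)) R := by
  rw [mem_ball_iff_norm] at hw ⊢
  have h1 : (w, (x : ℂ)) - cst (ws, 0) = (w - fun i => (ws i : ℂ), (x : ℂ)) := by
    unfold cst
    ext1
    · rfl
    · simp
  rw [h1, Prod.norm_def]
  refine max_lt hw ?_
  change ‖(x : ℂ)‖ < R
  rw [Complex.norm_real]
  exact hx

theorem diff_GG [DecidableEq ι] {ws : ι → ℝ} {R : ℝ} {Φ : (ι → ℂ) × ℂ → ℂ}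
    (hΦ : ∀ p ∈ Metric.ball (cst (ws, 0)) R, AnalyticAt ℂ Φ p) {ρ' : ℝ} (hρ' : 0 < ρ')
    (hρR : ρ' < R) (w : ι → ℂ) (i : ι) (z₀ : ℂ)
    (hz : Function.update w i z₀ ∈ Metric.ball (fun i => (ws i : ℂ)) R) :
    DifferentiableAt ℂ (fun z : ℂ => GG Φ ρ' (Function.update w i z)) z₀ := by
  have hcont : Continuous fun z : ℂ => Function.update w i z := by fun_prop
  have hnhds : (fun z : ℂ => Function.update w i z) ⁻¹' (Metric.ball (fun i => (ws i : ℂ)) R) ∈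
      𝓝 z₀ := hcont.continuousAt.preimage_mem_nhds (Metric.isOpen_ball.mem_nhds hz)
  obtain ⟨ε, hε, hεb⟩ := Metric.nhds_basis_closedBall.mem_iff.1 hnhds
  have hmem : ∀ z ∈ Metric.closedBall z₀ ε, ∀ x ∈ Set.Icc (-ρ') ρ',
      (Function.update w i z, (x : ℂ)) ∈ Metric.ball (cst (ws, 0)) R := by
    intro z hz x hx
    refine mem_ball_of (hεb hz) ?_
    have := abs_le.2 hx
    linarith
  have hm : Continuous fun q : ℂ × ℝ => (Function.update w i q.1, (q.2 : ℂ)) := by fun_prop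
  have hK : IsCompact (Metric.closedBall z₀ ε ×ˢ Set.Icc (-ρ') ρ') :=
    (isCompact_closedBall z₀ ε).prod isCompact_Icc
  have hF' : ContinuousOn (fun q : ℂ × ℝ => fderiv ℂ Φ (Function.update w i q.1, (q.2 : ℂ))
      (Pi.single i 1, 0)) (Metric.closedBall z₀ ε ×ˢ Set.Icc (-ρ') ρ') := by
    intro q hq
    have h1 := (hΦ _ (hmem q.1 hq.1 q.2 hq.2)).fderiv.continuousAt
    have h2 : ContinuousAt (fun q : ℂ × ℝ => fderiv ℂ Φ (Function.update w i q.1, (q.2 : ℂ))) q :=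
      ContinuousAt.comp (f := fun q : ℂ × ℝ => (Function.update w i q.1, (q.2 : ℂ))) h1
        hm.continuousAt
    exact (h2.clm_apply continuousAt_const).continuousWithinAt
  obtain ⟨C, hC⟩ := hK.exists_bound_of_continuousOn hF'
  have hsub : Ι (-ρ') ρ' ⊆ Set.Icc (-ρ') ρ' := by
    rw [Set.uIoc_of_le (by linarith)]
    exact Set.Ioc_subset_Icc_self
  have hFc : ∀ z ∈ Metric.closedBall z₀ ε,
      ContinuousOn (fun x : ℝ => Φ (Function.update w i z, (x : ℂ))) (Set.Icc (-ρ') ρ') := by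
    intro z hz x hx
    have h1 := (hΦ _ (hmem z hz x hx)).continuousAt
    exact (ContinuousAt.comp (f := fun x : ℝ => (Function.update w i z, (x : ℂ))) h1
      (by fun_prop)).continuousWithinAt
  have hz₀ : z₀ ∈ Metric.closedBall z₀ ε := Metric.mem_closedBall_self hε.le
  have key := intervalIntegral.hasDerivAt_integral_of_dominated_loc_of_deriv_le (μ := volume)
    (a := -ρ') (b := ρ') (bound := fun _ => C) (s := Metric.closedBall z₀ ε) (x₀ := z₀)
    (F := fun (z : ℂ) (x : ℝ) => Φ (Function.update w i z, (x : ℂ)))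
    (F' := fun (z : ℂ) (x : ℝ) => fderiv ℂ Φ (Function.update w i z, (x : ℂ)) (Pi.single i 1, 0))
    (Metric.closedBall_mem_nhds z₀ hε) ?_ ?_ ?_ ?_ ?_ ?_
  · exact key.2.differentiableAt
  · filter_upwards [Metric.closedBall_mem_nhds z₀ hε] with z hz
    exact ((hFc z hz).mono hsub).aestronglyMeasurable measurableSet_uIoc
  · exact ((hFc z₀ hz₀).mono (by rw [Set.uIcc_of_le (by linarith)])).intervalIntegrable
  · have h1 : ContinuousOn (fun x : ℝ => fderiv ℂ Φ (Function.update w i z₀, (x : ℂ))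
        (Pi.single i 1, 0)) (Set.Icc (-ρ') ρ') :=
      hF'.comp (f := fun x : ℝ => (z₀, x)) (by fun_prop) (fun x hx => ⟨hz₀, hx⟩)
    exact (h1.mono hsub).aestronglyMeasurable measurableSet_uIoc
  · refine Eventually.of_forall fun x hx z hz => ?_
    exact hC (z, x) ⟨hz, hsub hx⟩
  · exact intervalIntegrable_const
  · refine Eventually.of_forall fun x hx z hz => ?_
    have h1 := (hΦ _ (hmem z hz x (hsub hx))).differentiableAt.hasFDerivAt
    have h2 : HasDerivAt (fun z : ℂ => (Function.update w i z, (x : ℂ)))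
        ((Pi.single i 1 : ι → ℂ), (0 : ℂ)) z :=
      (hasDerivAt_update w i z).prodMk (hasDerivAt_const z (x : ℂ))
    exact h1.comp_hasDerivAt z h2

theorem cont_GG {ws : ι → ℝ} {R ρ : ℝ} {Φ : (ι → ℂ) × ℂ → ℂ}
    (hΦ : ∀ p ∈ Metric.ball (cst (ws, 0)) R, AnalyticAt ℂ Φ p) {ρ' : ℝ} (hρ' : 0 < ρ')
    (hρR : ρ' < R) (hR : ρ < R) (hρ : 0 ≤ ρ) :
    ContinuousOn (fun v : (ι → ℝ) × ℝ => Φ (cst v))
      ({w | ∀ i, |w i - ws i| ≤ ρ} ×ˢ Set.Icc (-ρ') ρ') ∧
    ContinuousOn (fun w : ι → ℝ => GG Φ ρ' fun i => (w i : ℂ)) {w | ∀ i, |w i - ws i| ≤ ρ} := by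
  have hset : {w : ι → ℝ | ∀ i, |w i - ws i| ≤ ρ} = Metric.closedBall ws ρ := by
    ext w
    rw [Set.mem_ofPred_eq, mem_closedBall_iff_norm, pi_norm_le_iff_of_nonneg hρ]
    rfl
  have hcomp : IsCompact {w : ι → ℝ | ∀ i, |w i - ws i| ≤ ρ} := by
    rw [hset]
    exact isCompact_closedBall ws ρ
  have hmem : ∀ w ∈ {w : ι → ℝ | ∀ i, |w i - ws i| ≤ ρ}, ∀ x ∈ Set.Icc (-ρ') ρ',
      cst (w, x) ∈ Metric.ball (cst (ws, 0)) R := by
    intro w hw x hx
    refine mem_ball_of ?_ (by have := abs_le.2 hx; linarith)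
    rw [mem_ball_iff_norm]
    have h1 : (fun i => (w i : ℂ)) - (fun i => (ws i : ℂ)) = fun i => ((w i - ws i : ℝ) : ℂ) := by
      funext i
      simp
    rw [h1]
    refine lt_of_le_of_lt ?_ hR
    rw [pi_norm_le_iff_of_nonneg hρ]
    intro i
    rw [Complex.norm_real]
    exact hw i
  have hΦc : ContinuousOn (fun v : (ι → ℝ) × ℝ => Φ (cst v))
      ({w | ∀ i, |w i - ws i| ≤ ρ} ×ˢ Set.Icc (-ρ') ρ') := by
    intro v hv
    have h1 := (hΦ _ (hmem v.1 hv.1 v.2 hv.2)).continuousAt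
    exact (ContinuousAt.comp (f := cst) h1 continuous_cst.continuousAt).continuousWithinAt
  refine ⟨hΦc, ?_⟩
  obtain ⟨C, hC⟩ := (hcomp.prod isCompact_Icc).exists_bound_of_continuousOn hΦc
  have hsub : Ι (-ρ') ρ' ⊆ Set.Icc (-ρ') ρ' := by
    rw [Set.uIoc_of_le (by linarith)]
    exact Set.Ioc_subset_Icc_self
  intro w hw
  unfold GG
  refine intervalIntegral.continuousWithinAt_of_dominated_interval (bound := fun _ => C) ?_ ?_ ?_ ?_
  · filter_upwards [self_mem_nhdsWithin] with w' hw'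
    have h1 : ContinuousOn (fun x : ℝ => Φ (cst (w', x))) (Set.Icc (-ρ') ρ') :=
      hΦc.comp (f := fun x : ℝ => (w', x)) (by fun_prop) (fun x hx => ⟨hw', hx⟩)
    exact (h1.mono hsub).aestronglyMeasurable measurableSet_uIoc
  · filter_upwards [self_mem_nhdsWithin] with w' hw'
    refine Eventually.of_forall fun x hx => ?_
    exact hC (w', x) ⟨hw', hsub hx⟩
  · exact intervalIntegrable_const
  · refine Eventually.of_forall fun x hx => ?_
    exact (hΦc.comp (f := fun w' : ι → ℝ => (w', x)) (by fun_prop)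
      (fun w' hw' => ⟨hw', hsub hx⟩)) w hw

theorem fubini {ws : ι → ℝ} {R ρ : ℝ} {Φ : (ι → ℂ) × ℂ → ℂ}
    (hΦ : ∀ p ∈ Metric.ball (cst (ws, 0)) R, AnalyticAt ℂ Φ p) {ρ' : ℝ} (hρ' : 0 < ρ')
    (hρR : ρ' < R) (hR : ρ < R) (hρ : 0 ≤ ρ) :
    ∫ w in {w : ι → ℝ | ∀ i, |w i - ws i| ≤ ρ}, GG Φ ρ' (fun i => (w i : ℂ)) =
      ∫ u in bx ι ρ ρ', Φ (cst (fun i => ws i + u.1 i, u.2)) := by
  have hset : {w : ι → ℝ | ∀ i, |w i - ws i| ≤ ρ} = Metric.closedBall ws ρ := by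
    ext w
    rw [Set.mem_ofPred_eq, mem_closedBall_iff_norm, pi_norm_le_iff_of_nonneg hρ]
    rfl
  have hset0 : {w : ι → ℝ | ∀ i, |w i| ≤ ρ} = Metric.closedBall (0 : ι → ℝ) ρ := by
    ext w
    rw [Set.mem_ofPred_eq, mem_closedBall_iff_norm, sub_zero, pi_norm_le_iff_of_nonneg hρ]
    rfl
  have hbx : bx ι ρ ρ' = {w : ι → ℝ | ∀ i, |w i| ≤ ρ} ×ˢ Set.Icc (-ρ') ρ' := by
    ext u
    unfold bx
    rw [Set.mem_ofPred_eq, Set.mem_prod, Set.mem_Icc, ← abs_le]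
    rfl
  obtain ⟨h1, -⟩ := cont_GG hΦ hρ' hρR hR hρ
  have h2 : ContinuousOn (fun u : (ι → ℝ) × ℝ => Φ (cst (fun i => ws i + u.1 i, u.2)))
      ({w : ι → ℝ | ∀ i, |w i| ≤ ρ} ×ˢ Set.Icc (-ρ') ρ') := by
    refine h1.comp (f := fun u : (ι → ℝ) × ℝ => ((fun i => ws i + u.1 i : ι → ℝ), u.2))
      (by fun_prop) (fun u hu => ⟨fun i => ?_, hu.2⟩)
    have := hu.1 i
    simpa using this
  have hcomp : IsCompact ({w : ι → ℝ | ∀ i, |w i| ≤ ρ} ×ˢ Set.Icc (-ρ') ρ') := by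
    rw [hset0]
    exact (isCompact_closedBall (0 : ι → ℝ) ρ).prod isCompact_Icc
  have h3 : IntegrableOn (fun u : (ι → ℝ) × ℝ => Φ (cst (fun i => ws i + u.1 i, u.2)))
      ({w : ι → ℝ | ∀ i, |w i| ≤ ρ} ×ˢ Set.Icc (-ρ') ρ')
      ((volume : Measure (ι → ℝ)).prod (volume : Measure ℝ)) :=
    h2.integrableOn_compact hcomp
  have h4 := setIntegral_prod _ h3
  rw [hbx]
  refine Eq.trans ?_ h4.symm
  have h5 : ∀ v : ι → ℝ, ∫ x in Set.Icc (-ρ') ρ', Φ (cst (fun i => ws i + v i, x)) =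
      GG Φ ρ' (fun i => ((ws i + v i : ℝ) : ℂ)) := by
    intro v
    unfold GG
    rw [intervalIntegral.integral_of_le (by linarith), integral_Icc_eq_integral_Ioc]
    rfl
  simp only [h5]
  have hm1 : MeasurableSet {w : ι → ℝ | ∀ i, |w i - ws i| ≤ ρ} := by
    rw [hset]
    exact Metric.isClosed_closedBall.measurableSet
  have hm0 : MeasurableSet {w : ι → ℝ | ∀ i, |w i| ≤ ρ} := by
    rw [hset0]
    exact Metric.isClosed_closedBall.measurableSet
  rw [← integral_indicator hm1, ← integral_indicator hm0,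
    ← integral_add_left_eq_self _ ws]
  congr 1
  funext v
  by_cases hv : v ∈ {w : ι → ℝ | ∀ i, |w i| ≤ ρ}
  · rw [Set.indicator_of_mem hv, Set.indicator_of_mem]
    · rfl
    · intro i
      have := hv i
      simpa using this
  · rw [Set.indicator_of_notMem hv, Set.indicator_of_notMem]
    intro h
    apply hv
    intro i
    have := h i
    simpa using this

theorem exp_sub_one_le {e : ℂ} {ε C : ℝ} (h1 : ‖e‖ ≤ ε) (h2 : ε ≤ C) :
    ‖Complex.exp e - 1‖ ≤ ε * Real.exp C := by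
  have h3 := Complex.norm_exp_sub_sum_le_norm_mul_exp e 1
  simp only [sum_range_one, pow_zero, Nat.factorial_zero, Nat.cast_one, div_one, pow_one] at h3
  refine h3.trans ?_
  have h4 : Real.exp ‖e‖ ≤ Real.exp C := Real.exp_le_exp.2 (h1.trans h2)
  have h5 : 0 ≤ ‖e‖ := norm_nonneg e
  have h6 : 0 ≤ ε := h5.trans h1
  gcongr

/-- product of Gaussian sums -/
theorem gauss_prod [DecidableEq ι] {ws : ι → ℝ} {ρ c : ℝ} (hc : 0 < c) (hc1 : c ≤ 1) {N : ℕ}
    (hN : 1 ≤ N) :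
    ∑ k ∈ nrs ws ρ N, Real.exp (-(N * (c * ∑ i, ((k i : ℝ) / N - ws i) ^ 2))) ≤
      (3 * √(2 * π / c)) ^ Fintype.card ι * √(N : ℝ) ^ Fintype.card ι := by
  have hN0 : (1 : ℝ) ≤ N := by exact_mod_cast hN
  have hNp : (0 : ℝ) < N := by linarith
  have h1 : ∀ k : ι → ℕ, Real.exp (-(N * (c * ∑ i, ((k i : ℝ) / N - ws i) ^ 2))) =
      ∏ i, Real.exp (-(c / N * ((k i : ℝ) - N * ws i) ^ 2)) := by
    intro k
    rw [← Real.exp_sum]
    congr 1
    rw [sum_neg_distrib, mul_sum, mul_sum]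
    congr 1
    refine sum_congr rfl fun i _ => ?_
    field_simp
  simp only [h1]
  unfold nrs
  rw [← prod_univ_sum (fun i => (range (⌈(ws i + ρ) * N⌉₊ + 1)).filter
    fun d : ℕ => |(d : ℝ) / N - ws i| ≤ ρ) (fun i m => Real.exp (-(c / N * ((m : ℝ) - N * ws i) ^ 2)))]
  have h2 : ∀ i ∈ (univ : Finset ι), ∑ m ∈ (range (⌈(ws i + ρ) * N⌉₊ + 1)).filter
      (fun d : ℕ => |(d : ℝ) / N - ws i| ≤ ρ), Real.exp (-(c / N * ((m : ℝ) - N * ws i) ^ 2)) ≤
      3 * √(2 * π / c) * √(N : ℝ) := by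
    intro i _
    refine (gauss_sum (by positivity) (by rw [div_le_one hNp]; linarith) _).trans ?_
    have h3 : 2 * π / (c / N) = 2 * π / c * N := by field_simp
    rw [h3, Real.sqrt_mul (by positivity), mul_assoc]
  refine (prod_le_prod (fun i _ => sum_nonneg fun _ _ => (Real.exp_pos _).le) h2).trans ?_
  rw [prod_const, card_univ, mul_pow]

theorem mem_nrs [DecidableEq ι] {ws : ι → ℝ} {ρ : ℝ} {N : ℕ} {k : ι → ℕ} (h : k ∈ nrs ws ρ N)
    (i : ι) : |(k i : ℝ) / N - ws i| ≤ ρ := by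
  unfold nrs at h
  rw [Fintype.mem_piFinset] at h
  exact (mem_filter.1 (h i)).2

/-- the Gaussian bound at real points -/
theorem FX_real {Ψ : (ι → ℂ) × ℂ → ℂ} {ws : ι → ℝ} {D : ℝ} {τ : ℕ → (ι → ℂ) × ℂ → ℂ} {K : ℕ}
    {r c B : ℝ} (hd : Dat Ψ ws D τ K r c B) {N : ℕ} (hN : 1 ≤ N) {w : ι → ℝ} {x : ℝ}
    (hw : ∀ i, |w i - ws i| < r) (hx : |x| < r) :
    ‖FX Ψ D τ K N (cst (w, x))‖ ≤
      Real.exp B * Real.exp (-(N * (c * ∑ i, (w i - ws i) ^ 2))) * Real.exp (-(N * c) * x ^ 2) := by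
  have h1 : cst (w, x) = cst (ws, 0) + cst (w - ws, x) + 0 := by
    rw [add_zero, ← cst_add]
    congr 1
    ext1
    · funext i
      simp
    · simp
  have h2 : ‖(w - ws, x)‖ < r := by
    rw [Prod.norm_def]
    refine max_lt ?_ hx
    rw [pi_norm_lt_iff hd.rpos]
    exact hw
  have h3 := hd.bd N hN (w - ws, x) 0 h2 (by rw [norm_zero]; exact hd.rpos)
  rw [h1]
  refine h3.trans (le_of_eq ?_)
  rw [← Real.exp_add, ← Real.exp_add]
  congr 1
  simp only [norm_zero, Pi.sub_apply]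
  ring

/-- the bound of the inner integral -/
theorem GG_bd [DecidableEq ι] {Ψ : (ι → ℂ) × ℂ → ℂ} {ws : ι → ℝ} {D : ℝ}
    {τ : ℕ → (ι → ℂ) × ℂ → ℂ} {K : ℕ}
    {r c B : ℝ} (hd : Dat Ψ ws D τ K r c B) {N : ℕ} (hN : 1 ≤ N) {w : ι → ℝ} {ρ' : ℝ}
    (hρ' : 0 < ρ') (hρr : ρ' < r)
    (hw : ∀ i, |w i - ws i| < r) {y : ℝ} (hy : |y| < 1 / √(N : ℝ)) (hyr : 1 / √(N : ℝ) < r) (i : ι) :
    ‖GG (FX Ψ D τ K N) ρ' (Function.update (fun i => (w i : ℂ)) i (w i + y * Complex.I))‖ ≤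
      Real.exp (2 * B) * (2 * ρ') * Real.exp (-(c * N * ∑ i, (w i - ws i) ^ 2)) := by
  have hN0 : (1 : ℝ) ≤ N := by exact_mod_cast hN
  have hNp : (0 : ℝ) < N := by linarith
  have hy2 : N * y ^ 2 ≤ 1 := by
    have h1 : y ^ 2 ≤ (1 / √(N : ℝ)) ^ 2 := by
      rw [← sq_abs]
      have := abs_nonneg y
      gcongr
    rw [div_pow, one_pow, Real.sq_sqrt hNp.le, le_div_iff₀ hNp] at h1
    linarith
  unfold GG
  have h1 : ∀ x ∈ Ι (-ρ') ρ', ‖FX Ψ D τ K N
      (Function.update (fun i => (w i : ℂ)) i (w i + y * Complex.I), (x : ℂ))‖ ≤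
      Real.exp (2 * B) * Real.exp (-(c * N * ∑ i, (w i - ws i) ^ 2)) := by
    intro x hx
    rw [Set.uIoc_of_le (by linarith)] at hx
    have hx' : |x| < r := by
      have : |x| ≤ ρ' := abs_le.2 ⟨hx.1.le, hx.2⟩
      linarith
    have h2 : (Function.update (fun i => (w i : ℂ)) i (w i + y * Complex.I), (x : ℂ)) =
        cst (ws, 0) + cst (w - ws, x) + ((Pi.single i (y * Complex.I) : ι → ℂ), (0 : ℂ)) := by
      rw [← cst_add]
      unfold cst
      ext1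
      · funext j
        by_cases hj : j = i
        · subst hj
          simp
        · simp [Function.update_of_ne hj, Pi.single_eq_of_ne hj]
      · simp
    have h3 : ‖(w - ws, x)‖ < r := by
      rw [Prod.norm_def]
      refine max_lt ?_ hx'
      rw [pi_norm_lt_iff hd.rpos]
      exact hw
    have h4 : ‖((Pi.single i (y * Complex.I) : ι → ℂ), (0 : ℂ))‖ = |y| := by
      rw [Prod.norm_def, Pi.norm_single, norm_zero, norm_mul, Complex.norm_I, mul_one,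
        Complex.norm_real, Real.norm_eq_abs, max_eq_left (abs_nonneg y)]
    have h5 := hd.bd N hN (w - ws, x) ((Pi.single i (y * Complex.I) : ι → ℂ), (0 : ℂ)) h3
      (by rw [h4]; exact hy.trans hyr)
    rw [h2]
    refine h5.trans ?_
    rw [← Real.exp_add]
    apply Real.exp_le_exp.2
    rw [h4, sq_abs]
    have h6 : N * (B * y ^ 2) ≤ B := by
      have := mul_le_mul_of_nonneg_left hy2 hd.Bpos
      linarith
    have h7 : 0 ≤ N * (c * x ^ 2) := by
      have := hd.cpos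
      positivity
    simp only [Pi.sub_apply]
    have h8 : (N : ℝ) * (c * (∑ i, (w i - ws i) ^ 2 + x ^ 2)) =
        c * N * ∑ i, (w i - ws i) ^ 2 + N * (c * x ^ 2) := by ring
    linarith
  refine (intervalIntegral.norm_integral_le_of_norm_le_const h1).trans (le_of_eq ?_)
  rw [show ρ' - -ρ' = 2 * ρ' by ring, abs_of_pos (by linarith)]
  ring

end

/-- **NAL** -/
theorem nal : S_NAL := by
  intro h1 h2 h3 ι _ _ Ψ ws D R S hA hws T hT K hLXall
  obtain ⟨τ, hτ, r₁, C₁, hr₁, hLX⟩ := hLXall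
  obtain ⟨r, c, B, hd, hc1⟩ := exists_dat h1 Ψ ws D R S hA K τ hτ
  obtain ⟨r₃, hr₃, hscl⟩ := h2 h1 ι Ψ ws D R S hA K τ hτ
  have hcp := hd.cpos
  have hrp := hd.rpos
  have hBp := hd.Bpos
  obtain ⟨m, hm0, hm⟩ : ∃ m : ℝ, 0 < m ∧ ∀ i, m ≤ ws i := by
    have hs : 0 ≤ ∑ j, 1 / ws j := sum_nonneg fun j _ => by have := hws j; positivity
    refine ⟨1 / (1 + ∑ i, 1 / ws i), by positivity, fun i => ?_⟩
    have h4 : 1 / ws i ≤ ∑ j, 1 / ws j :=
      single_le_sum (f := fun j => 1 / ws j) (fun j _ => by have := hws j; positivity)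
        (mem_univ i)
    have h5 : 0 < 1 / ws i := by have := hws i; positivity
    calc 1 / (1 + ∑ i, 1 / ws i) ≤ 1 / (1 / ws i) := one_div_le_one_div_of_le h5 (by linarith)
      _ = ws i := one_div_one_div _
  refine ⟨min (min (r / 4) (r₁ / 2)) (min r₃ (m / 2)), by positivity, ?_⟩
  intro ρ ρ' hρ hρr hρ' hρ'r
  have e1 : ρ ≤ r / 4 := hρr.trans ((min_le_left _ _).trans (min_le_left _ _))
  have e2 : ρ ≤ r₁ / 2 := hρr.trans ((min_le_left _ _).trans (min_le_right _ _))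
  have e3 : ρ ≤ r₃ := hρr.trans ((min_le_right _ _).trans (min_le_left _ _))
  have e4 : ρ ≤ m / 2 := hρr.trans ((min_le_right _ _).trans (min_le_right _ _))
  have f1 : ρ' ≤ r / 4 := hρ'r.trans ((min_le_left _ _).trans (min_le_left _ _))
  have f2 : ρ' ≤ r₁ / 2 := hρ'r.trans ((min_le_left _ _).trans (min_le_right _ _))
  have f3 : ρ' ≤ r₃ := hρ'r.trans ((min_le_right _ _).trans (min_le_left _ _))
  obtain ⟨a, ha⟩ := hscl ρ ρ' hρ e3 hρ' f3
  obtain ⟨C₃, hC₃⟩ := ha K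
  obtain ⟨C₂, hC₂⟩ := h3 ι ws ρ c hρ (fun i => by have := hm i; linarith) hcp (K + 1)
  obtain ⟨Q, hQ⟩ : ∃ Q : ℝ, Q = |C₁| * Real.exp |C₁| * Real.exp B * √(π / c) *
    (3 * √(2 * π / c)) ^ Fintype.card ι := ⟨_, rfl⟩
  obtain ⟨M, hM⟩ : ∃ M : ℝ, M = Real.exp (2 * B) * (2 * ρ') := ⟨_, rfl⟩
  have hM0 : 0 ≤ M := by rw [hM]; positivity
  refine ⟨a, Q + |C₂| * M + C₃, ?_⟩
  have hsq : ∀ᶠ N : ℕ in atTop, 1 / √(N : ℝ) < r := by
    have h4 : Tendsto (fun N : ℕ => √(N : ℝ)) atTop atTop :=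
      Real.tendsto_sqrt_atTop.comp tendsto_natCast_atTop_atTop
    filter_upwards [h4.eventually_gt_atTop (1 / r), eventually_ge_atTop 1] with N h5 h6
    have h7 : 0 < √(N : ℝ) := Real.sqrt_pos.2 (by exact_mod_cast h6)
    rw [div_lt_iff₀ h7]
    rw [div_lt_iff₀ hrp] at h5
    linarith
  filter_upwards [hT, hLX, hC₃, hC₂, hsq, eventually_ge_atTop 1] with N g1 g2 g3 g4 g5 g6
  have hN0 : (1 : ℝ) ≤ N := by exact_mod_cast g6
  have hNp : (0 : ℝ) < N := by linarith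
  obtain ⟨d, hdd⟩ : ∃ d, d = Fintype.card ι := ⟨_, rfl⟩
  rw [← hdd] at hQ g3 g4 ⊢
  obtain ⟨s, hs⟩ : ∃ s : ℝ, s = √(N : ℝ) := ⟨_, rfl⟩
  have hs0 : 1 ≤ s := by
    rw [hs]
    exact Real.one_le_sqrt.2 hN0
  have hsp : 0 < s := by linarith
  have hss : s ^ 2 = N := by rw [hs]; exact Real.sq_sqrt hNp.le
  rw [← hs] at g3 ⊢
  have hsN : (s : ℂ) ^ 2 = (N : ℂ) := by
    rw [← Complex.ofReal_pow, hss]
    simp
  have hsC : (s : ℂ) ≠ 0 := by exact_mod_cast hsp.ne'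
  -- part 1
  obtain ⟨Φ, hΦ⟩ : ∃ Φ : (ι → ℂ) × ℂ → ℂ, Φ = FX Ψ D τ K N := ⟨_, rfl⟩
  have hΦan : ∀ p ∈ Metric.ball (cst (ws, 0)) (2 * r), AnalyticAt ℂ Φ p := by
    rw [hΦ]
    exact hd.an N
  have hGc : ∀ w : ι → ℝ, (∀ i, |w i - ws i| ≤ ρ) →
      ContinuousOn (fun x : ℝ => Φ (cst (w, x))) (Set.Icc (-ρ') ρ') := by
    intro w hw
    exact (cont_GG hΦan hρ' (by linarith) (ρ := ρ) (by linarith) hρ.le).1.comp
      (f := fun x : ℝ => (w, x)) (by fun_prop) (fun x hx => ⟨hw, hx⟩)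
  have hpt : ∀ k ∈ nrs ws ρ N, ‖Complex.exp (-(N * D)) * (∫ x in (-ρ')..ρ', T N k x) -
      GG Φ ρ' (fun i => (((k i : ℝ) / N : ℝ) : ℂ))‖ ≤
      (|C₁| / N ^ K * Real.exp |C₁| * Real.exp B * √(π / c) / s) *
        Real.exp (-(N * (c * ∑ i, ((k i : ℝ) / N - ws i) ^ 2))) := by
    intro k hk
    have hk1 := mem_nrs hk
    have hc1' := hGc (fun i => (k i : ℝ) / N) hk1
    have h5 : GG Φ ρ' (fun i => (((k i : ℝ) / N : ℝ) : ℂ)) =
        ∫ x in (-ρ')..ρ', Φ (cst (fun i => (k i : ℝ) / N, x)) := rfl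
    have hi2 : IntervalIntegrable (fun x : ℝ => Φ (cst (fun i => (k i : ℝ) / N, x))) volume
        (-ρ') ρ' := by
      refine ContinuousOn.intervalIntegrable ?_
      rw [Set.uIcc_of_le (by linarith)]
      exact hc1'
    rw [h5, ← intervalIntegral.integral_const_mul, ← intervalIntegral.integral_sub
      (((g1 k).intervalIntegrable _ _).const_mul _) hi2]
    have h6 : ∀ x ∈ Set.Ioc (-ρ') ρ', ‖Complex.exp (-(N * D)) * T N k x -
        Φ (cst (fun i => (k i : ℝ) / N, x))‖ ≤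
        (|C₁| / N ^ K * Real.exp |C₁| * Real.exp B) *
          Real.exp (-(N * (c * ∑ i, ((k i : ℝ) / N - ws i) ^ 2))) *
          Real.exp (-(N * c) * x ^ 2) := by
      intro x hx
      have hx' : |x| ≤ ρ' := abs_le.2 ⟨hx.1.le, hx.2⟩
      obtain ⟨e, he, hTe⟩ := g2 k x (fun i => by have := hk1 i; linarith) (by linarith)
      have h7 : Complex.exp (-(N * D)) * T N k x = Φ (cst (fun i => (k i : ℝ) / N, x)) *
          Complex.exp e := by
        rw [hTe, hΦ]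
        unfold FX
        rw [← Complex.exp_add, ← Complex.exp_add]
        congr 1
        ring
      have h8 : Complex.exp (-(N * D)) * T N k x - Φ (cst (fun i => (k i : ℝ) / N, x)) =
          Φ (cst (fun i => (k i : ℝ) / N, x)) * (Complex.exp e - 1) := by
        rw [h7]
        ring
      rw [h8, norm_mul]
      have h9 : ‖Complex.exp e - 1‖ ≤ |C₁| / N ^ K * Real.exp |C₁| := by
        refine exp_sub_one_le (he.trans ?_) ?_
        · have := le_abs_self C₁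
          gcongr
        · exact div_le_self (abs_nonneg _) (one_le_pow₀ hN0)
      have h10 := FX_real hd g6 (w := fun i => (k i : ℝ) / N) (x := x)
        (fun i => by have := hk1 i; linarith) (by linarith)
      rw [← hΦ] at h10
      calc ‖Φ (cst (fun i => (k i : ℝ) / N, x))‖ * ‖Complex.exp e - 1‖
          ≤ (Real.exp B * Real.exp (-(N * (c * ∑ i, ((k i : ℝ) / N - ws i) ^ 2))) *
            Real.exp (-(N * c) * x ^ 2)) * (|C₁| / N ^ K * Real.exp |C₁|) :=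
            mul_le_mul h10 h9 (norm_nonneg _) (by positivity)
        _ = _ := by ring
    have hgi : Integrable (fun x : ℝ => Real.exp (-(N * c) * x ^ 2)) :=
      integrable_exp_neg_mul_sq (by positivity)
    refine (intervalIntegral.norm_integral_le_of_norm_le (by linarith)
      (Eventually.of_forall h6) ((hgi.const_mul _).intervalIntegrable)).trans ?_
    rw [intervalIntegral.integral_const_mul]
    have h11 : ∫ x in (-ρ')..ρ', Real.exp (-(N * c) * x ^ 2) ≤ √(π / c) / s := by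
      rw [intervalIntegral.integral_of_le (by linarith)]
      refine (setIntegral_le_integral hgi (Eventually.of_forall fun t => by positivity)).trans ?_
      rw [integral_gaussian]
      have h12 : π / (N * c) = π / c / N := by field_simp
      rw [h12, Real.sqrt_div (by positivity), hs]
    calc |C₁| / N ^ K * Real.exp |C₁| * Real.exp B *
          Real.exp (-(N * (c * ∑ i, ((k i : ℝ) / N - ws i) ^ 2))) *
          ∫ x in (-ρ')..ρ', Real.exp (-(N * c) * x ^ 2)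
        ≤ |C₁| / N ^ K * Real.exp |C₁| * Real.exp B *
          Real.exp (-(N * (c * ∑ i, ((k i : ℝ) / N - ws i) ^ 2))) * (√(π / c) / s) := by
          gcongr
      _ = _ := by ring
  have hpart1 : ‖(s : ℂ) / (s : ℂ) ^ d * Complex.exp (-(N * D)) *
      (∑ k ∈ nrs ws ρ N, ∫ x in (-ρ')..ρ', T N k x) - (s : ℂ) / (s : ℂ) ^ d *
      ∑ k ∈ nrs ws ρ N, GG Φ ρ' (fun i => (((k i : ℝ) / N : ℝ) : ℂ))‖ ≤ Q / N ^ K := by
    rw [mul_assoc, ← mul_sub, mul_sum, ← sum_sub_distrib, norm_mul, norm_div, norm_pow,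
      Complex.norm_real, Real.norm_of_nonneg hsp.le]
    have h5 : ‖∑ k ∈ nrs ws ρ N, (Complex.exp (-(N * D)) * (∫ x in (-ρ')..ρ', T N k x) -
        GG Φ ρ' (fun i => (((k i : ℝ) / N : ℝ) : ℂ)))‖ ≤
        (|C₁| / N ^ K * Real.exp |C₁| * Real.exp B * √(π / c) / s) *
          ((3 * √(2 * π / c)) ^ d * s ^ d) := by
      refine (norm_sum_le _ _).trans ((sum_le_sum hpt).trans ?_)
      rw [← mul_sum]
      refine mul_le_mul_of_nonneg_left ?_ (by positivity)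
      rw [hdd, hs]
      exact gauss_prod hcp hc1 g6
    calc s / s ^ d * ‖∑ k ∈ nrs ws ρ N, (Complex.exp (-(N * D)) *
          (∫ x in (-ρ')..ρ', T N k x) - GG Φ ρ' (fun i => (((k i : ℝ) / N : ℝ) : ℂ)))‖
        ≤ s / s ^ d * ((|C₁| / N ^ K * Real.exp |C₁| * Real.exp B * √(π / c) / s) *
          ((3 * √(2 * π / c)) ^ d * s ^ d)) := by gcongr
      _ = Q / N ^ K := by
          rw [hQ]
          field_simp
  -- part 2
  have hpart2 : ‖(s : ℂ) / (s : ℂ) ^ d *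
      (∑ k ∈ nrs ws ρ N, GG Φ ρ' (fun i => (((k i : ℝ) / N : ℝ) : ℂ))) -
      (s : ℂ) ^ (d + 1) * ∫ u in bx ι ρ ρ', Φ (cst (fun i => ws i + u.1 i, u.2))‖ ≤
      |C₂| * M / N ^ K := by
    rw [← fubini hΦan hρ' (by linarith) (by linarith) hρ.le]
    have h5 := g4 (GG Φ ρ') M hM0
      (cont_GG hΦan hρ' (by linarith) (by linarith) hρ.le).2 (by
        intro w hw i y hy
        have hy' : |y| < r := hy.trans (by rw [← hs] at g5; rw [hs] at g5; exact g5)
        refine ⟨?_, ?_⟩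
        · refine diff_GG hΦan hρ' (by linarith) _ i _ ?_
          rw [mem_ball_iff_norm, pi_norm_lt_iff (by linarith)]
          intro j
          by_cases hj : j = i
          · subst hj
            rw [Pi.sub_apply, Function.update_self]
            have h6 : (w j : ℂ) + y * Complex.I - (ws j : ℂ) =
                ((w j - ws j : ℝ) : ℂ) + (y : ℂ) * Complex.I := by
              push_cast
              ring
            rw [h6]
            refine (norm_add_le _ _).trans_lt ?_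
            rw [norm_mul, Complex.norm_I, mul_one, Complex.norm_real, Complex.norm_real,
              Real.norm_eq_abs, Real.norm_eq_abs]
            have := hw j
            linarith
          · rw [Pi.sub_apply, Function.update_of_ne hj, ← Complex.ofReal_sub, Complex.norm_real,
              Real.norm_eq_abs]
            have := hw j
            linarith
        · rw [hΦ, hM]
          exact GG_bd hd g6 hρ' (by linarith) (fun i => by have := hw i; linarith) hy g5 i)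
    have h6 : (s : ℂ) ^ (d + 1) = (s : ℂ) / (s : ℂ) ^ d * (N : ℂ) ^ d := by
      rw [← hsN, ← pow_mul, div_mul_eq_mul_div, eq_div_iff (pow_ne_zero _ hsC)]
      ring
    rw [h6, mul_assoc, ← mul_sub, norm_mul, norm_div, norm_pow, Complex.norm_real,
      Real.norm_of_nonneg hsp.le]
    have h7 : s / s ^ d ≤ N := by
      calc s / s ^ d ≤ s := div_le_self hsp.le (one_le_pow₀ hs0)
        _ ≤ s * s := by nlinarith
        _ = N := by rw [← hss, sq]
    calc s / s ^ d * ‖(∑ k ∈ nrs ws ρ N, GG Φ ρ' fun i => (((k i : ℝ) / N : ℝ) : ℂ)) -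
          (N : ℂ) ^ d * ∫ w in {w : ι → ℝ | ∀ i, |w i - ws i| ≤ ρ}, GG Φ ρ' fun i => (w i : ℂ)‖
        ≤ N * (C₂ * M / (N : ℝ) ^ (K + 1)) :=
          mul_le_mul h7 h5 (norm_nonneg _) hNp.le
      _ = C₂ * M / N ^ K := by
          rw [pow_succ]
          field_simp
      _ ≤ |C₂| * M / N ^ K := by
          have := le_abs_self C₂
          gcongr
  -- the sum
  have hpart3 : ‖(s : ℂ) ^ (d + 1) * (∫ u in bx ι ρ ρ', Φ (cst (fun i => ws i + u.1 i, u.2))) -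
      ∑ j ∈ range K, a j / (N : ℂ) ^ j‖ ≤ C₃ / N ^ K := by
    rw [hΦ]
    exact g3
  have h5 : (s : ℂ) / (s : ℂ) ^ d * Complex.exp (-(N * D)) *
      (∑ k ∈ nrs ws ρ N, ∫ x in (-ρ')..ρ', T N k x) - ∑ j ∈ range K, a j / (N : ℂ) ^ j =
      ((s : ℂ) / (s : ℂ) ^ d * Complex.exp (-(N * D)) *
      (∑ k ∈ nrs ws ρ N, ∫ x in (-ρ')..ρ', T N k x) - (s : ℂ) / (s : ℂ) ^ d *
      ∑ k ∈ nrs ws ρ N, GG Φ ρ' (fun i => (((k i : ℝ) / N : ℝ) : ℂ))) +
      ((s : ℂ) / (s : ℂ) ^ d *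
      (∑ k ∈ nrs ws ρ N, GG Φ ρ' (fun i => (((k i : ℝ) / N : ℝ) : ℂ))) -
      (s : ℂ) ^ (d + 1) * ∫ u in bx ι ρ ρ', Φ (cst (fun i => ws i + u.1 i, u.2))) +
      ((s : ℂ) ^ (d + 1) * (∫ u in bx ι ρ ρ', Φ (cst (fun i => ws i + u.1 i, u.2))) -
      ∑ j ∈ range K, a j / (N : ℂ) ^ j) := by ring
  rw [h5]
  refine (norm_add_le _ _).trans ((add_le_add ((norm_add_le _ _).trans
    (add_le_add hpart1 hpart2)) hpart3).trans (le_of_eq ?_))
  rw [add_div, add_div]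

end Pool.Agent.Y275.TKX
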